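import Mathlib
import Pool.Agent.X147.JacketA

/-!
# MP_522cd8_co : primary jacket matrices of every width exist

There is a commutative ring `R` of characteristic `0` (namely `ℤ × 𝔽₄`) such that, with
`N = Rˣ`, there are infinitely many `n` such that for every admissible width `w` there is a
primary jacket matrix of order `2 n` with entries in `N` and jacket width exactly `w`.
-/

namespace Pool.Agent.Results.MP_522cd8_co.AllWidths

open Finset

/-- `M` is a GBH`(N, v)` matrix: `v ≥ 2`, `char R` does not divide `v`, the entries lie in `N`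
and `M M* = M* M = v I`, where `M*` is the transpose of the matrix of inverses. -/
def IsGBH {R : Type} [Ring R] (N : Subgroup Rˣ) (v : ℕ) (M : Fin v → Fin v → Rˣ) : Prop :=
  2 ≤ v ∧ ¬ (ringChar R ∣ v) ∧ (∀ i j, M i j ∈ N) ∧
  (∀ i j, ∑ k, (M i k : R) * (((M j k)⁻¹ : Rˣ) : R) = if i = j then (v : R) else 0) ∧
  (∀ i j, ∑ k, (((M k i)⁻¹ : Rˣ) : R) * (M k j : R) = if i = j then (v : R) else 0)

/-- The unit `u` is `1` or `-1`. -/
def IsSign {R : Type} [Ring R] (u : Rˣ) : Prop := (u : R) = 1 ∨ (u : R) = -1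

/-- The first row and the first column consist of `1`s. -/
def Normalised {R : Type} [Ring R] {v : ℕ} (M : Fin v → Fin v → Rˣ) : Prop :=
  ∀ i j : Fin v, (i : ℕ) = 0 ∨ (j : ℕ) = 0 → M i j = 1

/-- `L` arises from `M` by permuting rows and permuting columns. -/
def PermEquiv {R : Type} [Ring R] {v : ℕ} (M L : Fin v → Fin v → Rˣ) : Prop :=
  ∃ σ τ : Equiv.Perm (Fin v), ∀ i j, L i j = M (σ i) (τ j)

/-- The first `m` and the last `m` rows, and the first `m` and the last `m` columns, have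
all their entries in `{1, -1}`. -/
def SignFrame {R : Type} [Ring R] {v : ℕ} (m : ℕ) (L : Fin v → Fin v → Rˣ) : Prop :=
  ∀ i j : Fin v, ((i : ℕ) < m ∨ v ≤ (i : ℕ) + m ∨ (j : ℕ) < m ∨ v ≤ (j : ℕ) + m) →
    IsSign (L i j)

/-- Some matrix permutation equivalent to `K` is normalised and has a sign frame of
thickness `m`. -/
def AtLeast {R : Type} [Ring R] {v : ℕ} (m : ℕ) (K : Fin v → Fin v → Rˣ) : Prop :=
  ∃ L, PermEquiv K L ∧ Normalised L ∧ SignFrame m L

/-- `K` is a jacket matrix of order `v` with entries in `N`. -/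
def IsJacket {R : Type} [Ring R] (N : Subgroup Rˣ) (v : ℕ) (K : Fin v → Fin v → Rˣ) : Prop :=
  IsGBH N v K ∧ Normalised K ∧ AtLeast 1 K

/-- `K` has jacket width exactly `w`. -/
def HasWidth {R : Type} [Ring R] {v : ℕ} (K : Fin v → Fin v → Rˣ) (w : ℕ) : Prop :=
  1 ≤ w ∧ 2 * w ≤ v ∧ AtLeast w K ∧ ∀ m, 1 ≤ m → 2 * m ≤ v → AtLeast m K → m ≤ w

/-- `K` is primary: it is not permutation equivalent to a Kronecker product of two jacket
matrices. -/
def IsPrimary {R : Type} [Ring R] (N : Subgroup Rˣ) {v : ℕ} (K : Fin v → Fin v → Rˣ) : Prop :=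
  ¬ ∃ (v₁ v₂ : ℕ) (K₁ : Fin v₁ → Fin v₁ → Rˣ) (K₂ : Fin v₂ → Fin v₂ → Rˣ)
    (e f : Fin v ≃ Fin v₁ × Fin v₂), IsJacket N v₁ K₁ ∧ IsJacket N v₂ K₂ ∧
      ∀ i j, K i j = K₁ (e i).1 (f j).1 * K₂ (e i).2 (f j).2

/-- Property (F) of the pair `(R, N)`. -/
def PropertyF {R : Type} [Ring R] (N : Subgroup Rˣ) : Prop :=
  {n : ℕ | ∀ w, 1 ≤ w → w ≤ n → (Odd n → w ≤ n - 1) →
    ∃ K : Fin (2 * n) → Fin (2 * n) → Rˣ,
      IsJacket N (2 * n) K ∧ IsPrimary N K ∧ HasWidth K w}.Infinite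

/-! ### Orders of sign matrices with orthogonal rows -/

lemma four_dvd {v : ℕ} (hv : 3 ≤ v) (h : Fin v → Fin v → ℤ) (hs : ∀ i j, h i j * h i j = 1)
    (ho : ∀ i j, ∑ k, h i k * h j k = if i = j then (v : ℤ) else 0) : 4 ∣ v := by
  have key : ∑ k, (h ⟨0, by omega⟩ k + h ⟨1, by omega⟩ k) *
      (h ⟨0, by omega⟩ k + h ⟨2, by omega⟩ k) = (v : ℤ) := by
    have e : ∀ k, (h ⟨0, by omega⟩ k + h ⟨1, by omega⟩ k) *
      (h ⟨0, by omega⟩ k + h ⟨2, by omega⟩ k) =
      h ⟨0, by omega⟩ k * h ⟨0, by omega⟩ k + h ⟨0, by omega⟩ k * h ⟨2, by omega⟩ k +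
      h ⟨1, by omega⟩ k * h ⟨0, by omega⟩ k + h ⟨1, by omega⟩ k * h ⟨2, by omega⟩ k := by
      intro k; ring
    rw [Finset.sum_congr rfl (fun k _ => e k), Finset.sum_add_distrib, Finset.sum_add_distrib,
      Finset.sum_add_distrib, ho, ho, ho, ho]
    simp
  have hd : (4 : ℤ) ∣ ∑ k, (h ⟨0, by omega⟩ k + h ⟨1, by omega⟩ k) *
      (h ⟨0, by omega⟩ k + h ⟨2, by omega⟩ k) := by
    apply Finset.dvd_sum
    intro k _
    have sg : ∀ i j, h i j = 1 ∨ h i j = -1 := fun i j => mul_self_eq_one_iff.mp (hs i j)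
    rcases sg ⟨0, by omega⟩ k with h0 | h0 <;> rcases sg ⟨1, by omega⟩ k with h1 | h1 <;>
      rcases sg ⟨2, by omega⟩ k with h2 | h2 <;> rw [h0, h1, h2] <;> norm_num
  rw [key] at hd
  exact_mod_cast hd

/-! ### The construction -/

section construct

variable {F : Type} [CommRing F] [CharP F 2]

/-- The unit `(a, b)` of `ℤ × F`, where `a = ± 1`. -/
def mkU (a : ℤ) (ha : a * a = 1) (b : Fˣ) : (ℤ × F)ˣ where
  val := (a, (b : F))
  inv := (a, ((b⁻¹ : Fˣ) : F))
  val_inv := by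
    ext
    · exact ha
    · simp
  inv_val := by
    ext
    · exact ha
    · simp

/-- The second component of the matrix. -/
def bmat (z : Fˣ) (w : ℕ) {v : ℕ} (i j : Fin v) : Fˣ :=
  if (i : ℕ) / 2 = (j : ℕ) / 2 ∧ w ≤ (i : ℕ) / 2 then z else 1

/-- The matrix of width `w`. -/
def kmat {v : ℕ} (z : Fˣ) (w : ℕ) (H : Fin v → Fin v → ℤ) (hH : ∀ i j, H i j * H i j = 1)
    (i j : Fin v) : (ℤ × F)ˣ := mkU (H i j) (hH i j) (bmat z w i j)

/-- The partner of an index. -/
def par {n : ℕ} (k : Fin (2 * n)) : Fin (2 * n) :=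
  ⟨if (k : ℕ) % 2 = 0 then (k : ℕ) + 1 else (k : ℕ) - 1, by split_ifs <;> omega⟩

lemma par_par {n : ℕ} (k : Fin (2 * n)) : par (par k) = k := by
  apply Fin.ext
  simp only [par]
  split_ifs <;> omega

lemma par_ne {n : ℕ} (k : Fin (2 * n)) : par k ≠ k := by
  intro h
  have := congrArg Fin.val h
  simp only [par] at this
  split_ifs at this <;> omega

lemma par_half {n : ℕ} (k : Fin (2 * n)) : ((par k : Fin (2 * n)) : ℕ) / 2 = (k : ℕ) / 2 := by
  simp only [par]
  split_ifs <;> omega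

lemma bmat_par_right (z : Fˣ) (w : ℕ) {n : ℕ} (i k : Fin (2 * n)) :
    bmat z w i (par k) = bmat z w i k := by
  unfold bmat
  rw [par_half]

lemma bmat_par_left (z : Fˣ) (w : ℕ) {n : ℕ} (i k : Fin (2 * n)) :
    bmat z w (par k) i = bmat z w k i := by
  unfold bmat
  rw [par_half]

lemma sum_zero_of_par {n : ℕ} (g : Fin (2 * n) → F) (hg : ∀ k, g (par k) = g k) :
    ∑ k, g k = 0 := by
  refine Finset.sum_involution (fun k _ => par k) ?_ ?_ ?_ ?_
  · intro k _
    rw [hg]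
    exact CharTwo.add_self_eq_zero _
  · intro k _ _
    exact par_ne k
  · intro k _
    exact mem_univ _
  · intro k _
    exact par_par k

lemma cast_even (n : ℕ) : ((2 * n : ℕ) : F) = 0 := by
  push_cast
  rw [CharTwo.two_eq_zero, zero_mul]

lemma isSign_kmat {v : ℕ} (z : Fˣ) (w : ℕ) (H : Fin v → Fin v → ℤ)
    (hH : ∀ i j, H i j * H i j = 1) (i j : Fin v) :
    IsSign (kmat z w H hH i j) ↔ bmat z w i j = 1 := by
  constructor
  · intro h
    apply Units.ext
    rcases h with h | h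
    · have := congrArg Prod.snd h
      exact this
    · have := congrArg Prod.snd h
      have h2 : ((bmat z w i j : Fˣ) : F) = -1 := this
      rw [h2, CharTwo.neg_eq]
      rfl
  · intro h
    rcases mul_self_eq_one_iff.mp (hH i j) with h1 | h1
    · left
      apply Prod.ext
      · exact h1
      · show ((bmat z w i j : Fˣ) : F) = 1
        rw [h]; rfl
    · right
      apply Prod.ext
      · exact h1
      · show ((bmat z w i j : Fˣ) : F) = -1
        rw [h, CharTwo.neg_eq]; rfl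

lemma charZero_prod : CharZero (ℤ × F) := by
  constructor
  intro a b h
  have := congrArg Prod.fst h
  simpa using this

lemma kmat_gbh {n : ℕ} (hn : 1 ≤ n) (z : Fˣ) (w : ℕ) (H : Fin (2 * n) → Fin (2 * n) → ℤ)
    (hH : X147.Jacket.HadNorm (2 * n) H) : IsGBH (⊤ : Subgroup (ℤ × F)ˣ) (2 * n)
      (kmat z w H hH.1) := by
  refine ⟨by omega, ?_, fun _ _ => Subgroup.mem_top _, ?_, ?_⟩
  · have := (charZero_prod (F := F))
    rw [(CharP.ringChar_zero_iff_CharZero (ℤ × F)).mpr this]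
    intro h
    have := Nat.eq_zero_of_zero_dvd h
    omega
  · intro i j
    apply Prod.ext
    · rw [Prod.fst_sum]
      have h1 : ∀ k, ((kmat z w H hH.1 i k : ℤ × F) *
          (((kmat z w H hH.1 j k)⁻¹ : (ℤ × F)ˣ) : ℤ × F)).1 = H i k * H j k := fun k => rfl
      rw [Finset.sum_congr rfl (fun k _ => h1 k), hH.2.2.1 i j]
      split_ifs <;> simp
    · rw [Prod.snd_sum]
      have h1 : ∀ k, ((kmat z w H hH.1 i k : ℤ × F) *
          (((kmat z w H hH.1 j k)⁻¹ : (ℤ × F)ˣ) : ℤ × F)).2 =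
          (bmat z w i k : F) * (((bmat z w j k)⁻¹ : Fˣ) : F) := fun k => rfl
      rw [Finset.sum_congr rfl (fun k _ => h1 k), sum_zero_of_par]
      · split_ifs
        · rw [Prod.snd_natCast, cast_even]
        · rfl
      · intro k
        rw [bmat_par_right, bmat_par_right]
  · intro i j
    apply Prod.ext
    · rw [Prod.fst_sum]
      have h1 : ∀ k, ((((kmat z w H hH.1 k i)⁻¹ : (ℤ × F)ˣ) : ℤ × F) *
          (kmat z w H hH.1 k j : ℤ × F)).1 = H k i * H k j := fun k => rfl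
      rw [Finset.sum_congr rfl (fun k _ => h1 k), hH.2.2.2 i j]
      split_ifs <;> simp
    · rw [Prod.snd_sum]
      have h1 : ∀ k, ((((kmat z w H hH.1 k i)⁻¹ : (ℤ × F)ˣ) : ℤ × F) *
          (kmat z w H hH.1 k j : ℤ × F)).2 =
          (((bmat z w k i)⁻¹ : Fˣ) : F) * (bmat z w k j : F) := fun k => rfl
      rw [Finset.sum_congr rfl (fun k _ => h1 k), sum_zero_of_par]
      · split_ifs
        · rw [Prod.snd_natCast, cast_even]
        · rfl
      · intro k
        rw [bmat_par_left, bmat_par_left]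

lemma kmat_norm {n : ℕ} (z : Fˣ) {w : ℕ} (hw : 1 ≤ w) (H : Fin (2 * n) → Fin (2 * n) → ℤ)
    (hH : X147.Jacket.HadNorm (2 * n) H) : Normalised (kmat z w H hH.1) := by
  intro i j hij
  apply Units.ext
  apply Prod.ext
  · exact hH.2.1 i j hij
  · show ((bmat z w i j : Fˣ) : F) = 1
    have : bmat z w i j = 1 := by
      unfold bmat
      rw [if_neg]
      rintro ⟨h1, h2⟩
      rcases hij with h | h <;> omega
    rw [this]; rfl

/-- the rearrangement of the indices -/
def sgf {n w : ℕ} (h : 2 * w ≤ 2 * n) (i : Fin (2 * n)) : Fin (2 * n) :=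
  ⟨if (i : ℕ) < w then (i : ℕ) else if 2 * n ≤ (i : ℕ) + w then (i : ℕ) + 2 * w - 2 * n
    else (i : ℕ) + w, by split_ifs <;> omega⟩

lemma sgf_inj {n w : ℕ} (h : 2 * w ≤ 2 * n) : Function.Injective (sgf h) := by
  intro i j hij
  have h1 := congrArg Fin.val hij
  apply Fin.ext
  have hi := i.isLt
  have hj := j.isLt
  simp only [sgf] at h1
  split_ifs at h1 <;> omega

lemma kmat_atLeast {n : ℕ} (z : Fˣ) {w : ℕ} (hw : 1 ≤ w) (hwn : 2 * w ≤ 2 * n)
    (H : Fin (2 * n) → Fin (2 * n) → ℤ)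
    (hH : X147.Jacket.HadNorm (2 * n) H) : AtLeast w (kmat z w H hH.1) := by
  let σ : Equiv.Perm (Fin (2 * n)) := Equiv.ofBijective (sgf hwn)
    (Finite.injective_iff_bijective.mp (sgf_inj hwn))
  have hσ : ∀ i, σ i = sgf hwn i := fun i => rfl
  refine ⟨fun i j => kmat z w H hH.1 (σ i) (σ j), ⟨σ, σ, fun i j => rfl⟩, ?_, ?_⟩
  · intro i j hij
    apply kmat_norm z hw H hH
    have h0 : ∀ i : Fin (2 * n), (i : ℕ) = 0 → ((σ i : Fin (2 * n)) : ℕ) = 0 := by
      intro i hi
      rw [hσ]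
      simp only [sgf]
      rw [if_pos (by omega)]
      exact hi
    rcases hij with h | h
    · exact Or.inl (h0 i h)
    · exact Or.inr (h0 j h)
  · intro i j hij
    show IsSign (kmat z w H hH.1 (σ i) (σ j))
    rw [isSign_kmat]
    have hlt : ∀ i : Fin (2 * n), ((i : ℕ) < w ∨ 2 * n ≤ (i : ℕ) + w) →
        ((σ i : Fin (2 * n)) : ℕ) < 2 * w := by
      intro i hi
      have := i.isLt
      rw [hσ]
      simp only [sgf]
      split_ifs <;> omega
    unfold bmat
    rw [if_neg]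
    rintro ⟨h1, h2⟩
    have hcase : ((i : ℕ) < w ∨ 2 * n ≤ (i : ℕ) + w) ∨ ((j : ℕ) < w ∨ 2 * n ≤ (j : ℕ) + w) := by
      tauto
    rcases hcase with h | h
    · have := hlt i h
      omega
    · have := hlt j h
      omega

lemma atLeast_mono {R : Type} [Ring R] {v : ℕ} {K : Fin v → Fin v → Rˣ} {m m' : ℕ}
    (h : m' ≤ m) (hK : AtLeast m K) : AtLeast m' K := by
  obtain ⟨L, h1, h2, h3⟩ := hK
  refine ⟨L, h1, h2, fun i j hij => h3 i j ?_⟩
  rcases hij with h' | h' | h' | h'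
  · left; omega
  · right; left; omega
  · right; right; left; omega
  · right; right; right; omega

lemma kmat_upper {n : ℕ} (z : Fˣ) (hz : z ≠ 1) {w : ℕ}
    (H : Fin (2 * n) → Fin (2 * n) → ℤ)
    (hH : ∀ i j, H i j * H i j = 1) (m : ℕ) (hm2 : 2 * m ≤ 2 * n)
    (h : AtLeast m (kmat z w H hH)) : m ≤ w := by
  obtain ⟨L, ⟨σ, τ, hL⟩, -, hS⟩ := h
  let r : Fin (2 * m) → Fin (2 * n) := fun k =>
    ⟨if (k : ℕ) < m then (k : ℕ) else (k : ℕ) + (2 * n - 2 * m), by
      have := k.isLt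
      split_ifs <;> omega⟩
  have hr : ∀ k, ((r k : Fin (2 * n)) : ℕ) < m ∨ 2 * n ≤ ((r k : Fin (2 * n)) : ℕ) + m := by
    intro k
    have := k.isLt
    simp only [r]
    split_ifs <;> omega
  have hrinj : Function.Injective r := by
    intro a b hab
    have h1 := congrArg Fin.val hab
    have ha := a.isLt
    have hb := b.isLt
    apply Fin.ext
    simp only [r] at h1
    split_ifs at h1 <;> omega
  have hlt : ∀ k, ((σ (r k) : Fin (2 * n)) : ℕ) < 2 * w := by
    intro k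
    have h1 : IsSign (L (r k) (τ.symm (σ (r k)))) := by
      apply hS
      rcases hr k with h | h
      · exact Or.inl h
      · exact Or.inr (Or.inl h)
    rw [hL, Equiv.apply_symm_apply, isSign_kmat] at h1
    by_contra hcon
    apply hz
    rw [← h1]
    unfold bmat
    rw [if_pos]
    exact ⟨rfl, by omega⟩
  let g : Fin (2 * m) → Fin (2 * w) := fun k => ⟨(σ (r k) : Fin (2 * n)), hlt k⟩
  have hg : Function.Injective g := by
    intro a b hab
    have h1 := congrArg Fin.val hab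
    simp only [g] at h1
    exact hrinj (σ.injective (Fin.ext h1))
  have := Fintype.card_le_of_injective g hg
  simp only [Fintype.card_fin] at this
  omega

/-- A GBH matrix over `ℤ × F` has order `2` or divisible by `4`. -/
lemma gbh_order {v : ℕ} (K : Fin v → Fin v → (ℤ × F)ˣ)
    (hK : IsGBH (⊤ : Subgroup (ℤ × F)ˣ) v K) : v = 2 ∨ 4 ∣ v := by
  obtain ⟨h2, -, -, hrow, -⟩ := hK
  rcases Nat.lt_or_ge v 3 with h | h
  · left; omega
  right
  have hu : ∀ u : (ℤ × F)ˣ, ((u : ℤ × F)).1 * (((u⁻¹ : (ℤ × F)ˣ) : ℤ × F)).1 = 1 := by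
    intro u
    have := congrArg Prod.fst u.mul_inv
    exact this
  have hsq : ∀ u : (ℤ × F)ˣ, (((u⁻¹ : (ℤ × F)ˣ) : ℤ × F)).1 = ((u : ℤ × F)).1 := by
    intro u
    rcases Int.mul_eq_one_iff_eq_one_or_neg_one.mp (hu u) with ⟨h1, h2⟩ | ⟨h1, h2⟩ <;>
      rw [h1, h2]
  apply four_dvd h (fun i j => ((K i j : ℤ × F)).1)
  · intro i j
    have := hu (K i j)
    rw [hsq] at this
    exact this
  · intro i j
    have := congrArg Prod.fst (hrow i j)
    rw [Prod.fst_sum] at this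
    have h1 : ∀ k, ((K i k : ℤ × F) * (((K j k)⁻¹ : (ℤ × F)ˣ) : ℤ × F)).1 =
        ((K i k : ℤ × F)).1 * ((K j k : ℤ × F)).1 := by
      intro k
      rw [← hsq (K j k)]
      rfl
    rw [Finset.sum_congr rfl (fun k _ => h1 k)] at this
    rw [this]
    split_ifs <;> simp

lemma all_primary {n : ℕ} (hn : 6 ≤ n) (hn4 : n % 4 = 2)
    (K : Fin (2 * n) → Fin (2 * n) → (ℤ × F)ˣ) :
    IsPrimary (⊤ : Subgroup (ℤ × F)ˣ) K := by
  rintro ⟨v₁, v₂, K₁, K₂, e, f, h1, h2, -⟩
  have hcard : 2 * n = v₁ * v₂ := by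
    have := Fintype.card_congr e
    simpa using this
  rcases gbh_order K₁ h1.1 with hv1 | ⟨a, hv1⟩ <;> rcases gbh_order K₂ h2.1 with hv2 | ⟨b, hv2⟩
  · rw [hv1, hv2] at hcard
    omega
  · rw [hv1, hv2] at hcard
    have : 2 * (4 * b) = 8 * b := by ring
    omega
  · rw [hv1, hv2] at hcard
    have : 4 * a * 2 = 8 * a := by ring
    omega
  · rw [hv1, hv2] at hcard
    have : 4 * a * (4 * b) = 8 * (2 * (a * b)) := by ring
    omega

theorem propertyF_of_unit (z : Fˣ) (hz : z ≠ 1) : PropertyF (⊤ : Subgroup (ℤ × F)ˣ) := by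
  apply Set.infinite_of_forall_exists_gt
  intro N
  obtain ⟨n, hN, hn6, hn4, H, hH⟩ := X147.Jacket.exists_hadNorm_infinite N
  refine ⟨n, ?_, hN⟩
  intro w hw hwn _
  refine ⟨kmat z w H hH.1, ⟨kmat_gbh (by omega) z w H hH, kmat_norm z hw H hH,
    atLeast_mono hw (kmat_atLeast z hw (by omega) H hH)⟩, all_primary hn6 hn4 _,
    hw, by omega, kmat_atLeast z hw (by omega) H hH, ?_⟩
  intro m _ hm2 hm
  exact kmat_upper z hz H hH.1 m hm2 hm

end construct

lemma exists_unit : ∃ z : (GaloisField 2 2)ˣ, z ≠ 1 := by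
  by_contra hcon
  push Not at hcon
  have hc : Nat.card (GaloisField 2 2) = 2 ^ 2 := GaloisField.card 2 2 (by decide)
  have hfin : Finite (GaloisField 2 2) := Nat.finite_of_card_ne_zero (by rw [hc]; norm_num)
  have hle : Nat.card (GaloisField 2 2) ≤ Nat.card Bool := by
    classical
    refine Nat.card_le_card_of_injective (fun x => decide (x = 0)) ?_
    intro x y hxy
    simp only [decide_eq_decide] at hxy
    by_cases hx : x = 0
    · rw [hx, hxy.mp hx]
    · have hy : y ≠ 0 := fun h => hx (hxy.mpr h)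
      have h1 := congrArg Units.val (hcon (Units.mk0 x hx))
      have h2 := congrArg Units.val (hcon (Units.mk0 y hy))
      simp only [Units.val_mk0, Units.val_one] at h1 h2
      rw [h1, h2]
  rw [hc] at hle
  simp at hle

/-- There is a commutative ring `R` of characteristic zero such that the pair `(R, Rˣ)` has
property (F). -/
theorem result : ∃ (R : Type) (_ : CommRing R), CharZero R ∧ PropertyF (⊤ : Subgroup Rˣ) := by
  obtain ⟨z, hz⟩ := exists_unit
  exact ⟨ℤ × GaloisField 2 2, inferInstance, charZero_prod, propertyF_of_unit z hz⟩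

end Pool.Agent.Results.MP_522cd8_co.AllWidths
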